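import Mathlib
import Pool.Agent.H.MP_1aba1b_co.Up
import Pool.Agent.H.MP_1e5ebc_co.Build

set_option autoImplicit false

namespace Pool.Agent.Results.MP_1e5ebc_co.Stair

open Finset Pool.Agent.H.MP_1e5ebc_co

/-- There is a `(b, r)`-flip graph of order `n`: `B` is its blue graph, `R` its red graph and
`B ⊔ R` the graph itself. -/
def Flip (b r n : ℕ) : Prop :=
  ∃ B R : SimpleGraph (Fin n), Disjoint B R ∧
    ∀ v, (B.neighborSet v).ncard = b ∧ (R.neighborSet v).ncard = r ∧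
      {e ∈ R.edgeSet | ∀ x ∈ e, x = v ∨ (B ⊔ R).Adj v x}.ncard <
        {e ∈ B.edgeSet | ∀ x ∈ e, x = v ∨ (B ⊔ R).Adj v x}.ncard

/-- the smallest order of a `(b, r)`-flip graph -/
noncomputable def h (b r : ℕ) : ℕ := sInf {n | 0 < n ∧ Flip b r n}

lemma nb_eq {n : ℕ} (G : SimpleGraph (Fin n)) (v : Fin n) :
    (G.neighborSet v).ncard = ∑ w, ib (G.Adj v w) := by
  classical
  rw [ib_card, ← Set.ncard_coe_finset]
  simp [SimpleGraph.neighborSet]

lemma ec_eq {n : ℕ} (G B R : SimpleGraph (Fin n)) (v : Fin n) :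
    2 * {e ∈ G.edgeSet | ∀ x ∈ e, x = v ∨ (B ⊔ R).Adj v x}.ncard =
      ∑ x, ∑ y, ib (x = v ∨ B.Adj v x ∨ R.Adj v x) * ib (y = v ∨ B.Adj v y ∨ R.Adj v y) *
        ib (G.Adj x y) := by
  classical
  rw [Pool.Agent.H.MP_1aba1b_co.two_ncard]
  refine sum_congr rfl fun x _ => sum_congr rfl fun y _ => ?_
  simp only [Sym2.mem_iff, forall_eq_or_imp, forall_eq, SimpleGraph.sup_adj]
  by_cases h1 : x = v ∨ B.Adj v x ∨ R.Adj v x <;> by_cases h2 : y = v ∨ B.Adj v y ∨ R.Adj v y <;>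
    simp [h1, h2, ib]

lemma toFV {b r n : ℕ} (hf : Flip b r n) : ∃ B R : Fin n → Fin n → Prop, FV B R b r := by
  obtain ⟨B, R, hd, hv⟩ := hf
  refine ⟨B.Adj, R.Adj, fun _ _ => B.adj_symm, fun _ _ => R.adj_symm, fun _ => B.irrefl,
    fun _ => R.irrefl, fun x y h1 h2 => ?_, fun x => by rw [← nb_eq, (hv x).1],
    fun x => by rw [← nb_eq, (hv x).2.1], fun v => ?_⟩
  · exact (disjoint_iff.1 hd ▸ show (B ⊓ R).Adj x y from ⟨h1, h2⟩ : (⊥ : SimpleGraph _).Adj x y)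
  · have := (hv v).2.2
    rw [← ec_eq, ← ec_eq]
    omega

lemma ofFV {V : Type} [Fintype V] {B R : V → V → Prop} {b r : ℕ} (hf : FV B R b r) :
    Flip b r (Fintype.card V) := by
  let e := (Fintype.equivFin V).symm
  let B' : SimpleGraph (Fin (Fintype.card V)) :=
    ⟨fun x y => B (e x) (e y), ⟨fun x y => hf.bs _ _⟩, ⟨fun x => hf.bi _⟩⟩
  let R' : SimpleGraph (Fin (Fintype.card V)) :=
    ⟨fun x y => R (e x) (e y), ⟨fun x y => hf.rs _ _⟩, ⟨fun x => hf.ri _⟩⟩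
  refine ⟨B', R', disjoint_iff.2 ?_, fun v => ⟨?_, ?_, ?_⟩⟩
  · ext x y
    exact ⟨fun h => hf.dj _ _ h.1 h.2, False.elim⟩
  · rw [nb_eq, ← hf.db (e v)]
    exact Fintype.sum_equiv e _ _ fun w => rfl
  · rw [nb_eq, ← hf.dr (e v)]
    exact Fintype.sum_equiv e _ _ fun w => rfl
  · have k : ∀ (S : V → V → Prop) (G : SimpleGraph (Fin (Fintype.card V))),
        (∀ x y, G.Adj x y = S (e x) (e y)) →
        2 * {e ∈ G.edgeSet | ∀ x ∈ e, x = v ∨ (B' ⊔ R').Adj v x}.ncard =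
          ∑ x, ∑ y, ib (x = e v ∨ B (e v) x ∨ R (e v) x) * ib (y = e v ∨ B (e v) y ∨ R (e v) y) *
            ib (S x y) := by
      intro S G hG
      rw [ec_eq]
      refine Fintype.sum_equiv e _ _ fun x => Fintype.sum_equiv e _ _ fun y => ?_
      simp only [hG, e.apply_eq_iff_eq]
      rfl
    have := hf.fl (e v)
    rw [← k B B' fun _ _ => rfl, ← k R R' fun _ _ => rfl] at this
    omega

lemma up1 {b r : ℕ} (hb : 3 ≤ b) (h2 : 2 * r + 2 ≤ b * (b + 1)) : Flip b r ((b + 1) * (r + 1)) := by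
  obtain ⟨t, rfl⟩ : ∃ t, b = t + 1 := ⟨b - 1, by omega⟩
  obtain ⟨B, R, hf⟩ := con (reg1 (t + 1)) (reg1 r) (by simp; nlinarith)
  simpa [mul_comm] using ofFV hf

lemma up2 {b r t p : ℕ} (hb : 3 ≤ b) (hbr : b < r) (ht : 2 ≤ t) (h1 : (t - 1) * p ≤ b)
    (h2 : b ≤ 2 * ((t - 1) * p)) (h3 : r + b * t * p < b + b ^ 2) : h b r ≤ t * (r + 4 * p) := by
  obtain ⟨t, rfl⟩ : ∃ s, t = s + 2 := ⟨t - 2, by omega⟩
  obtain ⟨p, rfl⟩ : ∃ s, p = s + 1 := ⟨p - 1, by rcases p with _ | p <;> simp at h2 ⊢; omega⟩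
  obtain ⟨k, k1, k2, k3⟩ : ∃ k, k * (p + 1) ≤ r ∧ r ≤ 2 * (k * (p + 1)) ∧
      2 * (k * (p + 1)) ≤ r + 2 * (p + 1) := by
    by_cases hp : r ≤ 2 * (p + 1)
    · have : 1 * (p + 1) ≤ (t + 2 - 1) * (p + 1) := Nat.mul_le_mul_right _ (by omega)
      exact ⟨1, by omega⟩
    · have a := Nat.div_add_mod r (2 * (p + 1))
      have c := Nat.mod_lt r (show 0 < 2 * (p + 1) by omega)
      refine ⟨r / (2 * (p + 1)) + 1, ?_⟩
      rw [mul_assoc, mul_comm (p + 1)] at a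
      rw [add_mul]
      omega
  obtain ⟨B0, hB⟩ := reg2 (t + 1) p b h1 h2
  obtain ⟨R0, hR⟩ := reg2 k p r k1 k2
  obtain ⟨B, R, hf⟩ := con hB hR (by simp; nlinarith)
  refine (Nat.sInf_le (s := {n | 0 < n ∧ Flip b r n}) ⟨Fintype.card_pos, ofFV hf⟩).trans ?_
  simp only [Fintype.card_prod, Fintype.card_fin, Fintype.card_bool]
  nlinarith

theorem result : ∀ b r : ℕ, 3 ≤ b → b < r → r + 1 ≤ (b + 1).choose 2 →
    (0 < h b r ∧ Flip b r (h b r)) ∧
    h b r ≤ (b + 1) * (r + 1) ∧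
    (r + 1 = (b + 1).choose 2 → h b r = (b + 1) * (r + 1)) ∧
    (∀ t, 3 ≤ t → (SimpleGraph.turanGraph b (t - 2)).edgeFinset.card + b ≤ r →
      t * r ≤ h b r + t.choose 2 * (3 * b)) ∧
    (∀ t p, 2 ≤ t → (t - 1) * p ≤ b → b ≤ 2 * ((t - 1) * p) → r + b * t * p < b + b ^ 2 →
      h b r ≤ t * (r + 4 * p)) ∧
    (∀ t, 3 ≤ t → (t - 3) * b ^ 2 + 2 * (t - 2) * b ≤ 2 * (t - 2) * r →
      2 * (t - 1) * r + (t - 2) * (2 * t - 1) * b < (t - 2) * b ^ 2 →
      t * r ≤ h b r + t.choose 2 * (3 * b) ∧ h b r ≤ t * r + 3 * b + 4 * t) ∧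
    ∃ z, h b r = b + r + 1 + z ∧
      ((r : ℤ) - b) * (h b r - 2 * z) + 2 ≤ z * min ((z : ℤ) - 1) b := by
  intro b r hb hbr hr
  have c2 : 2 * (b + 1).choose 2 = b * (b + 1) := by
    rw [Nat.choose_two_right, Nat.add_sub_cancel, mul_comm (b + 1),
      Nat.two_mul_div_two_of_even (Nat.even_mul_succ_self b)]
  have m1 : 0 < (b + 1) * (r + 1) ∧ Flip b r ((b + 1) * (r + 1)) :=
    ⟨by positivity, up1 hb (by omega)⟩
  have m : 0 < h b r ∧ Flip b r (h b r) := Nat.sInf_mem (s := {n | 0 < n ∧ Flip b r n}) ⟨_, m1⟩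
  have u : h b r ≤ (b + 1) * (r + 1) := Nat.sInf_le m1
  obtain ⟨B, R, hf⟩ := toFV m.2
  have hV : 0 < Fintype.card (Fin (h b r)) := by simpa using m.1
  have lo : ∀ t, 3 ≤ t → (SimpleGraph.turanGraph b (t - 2)).edgeFinset.card + b ≤ r →
      t * r ≤ h b r + t.choose 2 * (3 * b) := by
    intro t ht h1
    obtain ⟨s, rfl⟩ : ∃ s, t = s + 2 := ⟨t - 2, by omega⟩
    simpa using stair hf hV s (by omega) h1
  refine ⟨m, u, fun e => u.antisymm (by simpa using top hf hV hb hbr (by omega)), lo,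
    fun t p => up2 hb hbr, fun t ht h1 h2 => ?_, ?_⟩
  · obtain ⟨s, rfl⟩ : ∃ s, t = s + 3 := ⟨t - 3, by omega⟩
    simp only [Nat.add_sub_cancel, show s + 3 - 2 = s + 1 from rfl,
      show s + 3 - 1 = s + 2 from rfl, show 2 * (s + 3) - 1 = 2 * s + 5 from rfl] at h1 h2
    refine ⟨lo _ ht ?_, ?_⟩
    · have := SimpleGraph.mul_card_edgeFinset_turanGraph_le (n := b) (r := s + 1)
      rw [Nat.add_sub_cancel] at this
      refine Nat.le_of_mul_le_mul_left (c := 2 * (s + 1)) ?_ (by omega)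
      rw [mul_add]
      exact (Nat.add_le_add_right this _).trans h1
    · have a := Nat.div_add_mod (b + 2 * s + 3) (2 * (s + 2))
      have c := Nat.mod_lt (b + 2 * s + 3) (show 0 < 2 * (s + 2) by omega)
      generalize (b + 2 * s + 3) / (2 * (s + 2)) = p at a
      rw [mul_assoc] at a
      have b1 : 2 * s + 5 < b := by
        by_contra hc
        have := Nat.mul_le_mul_left ((s + 1) * b) (not_lt.1 hc)
        nlinarith [Nat.zero_le ((s + 2) * r)]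
      have a1 : 2 * ((s + 2) * p) ≤ b + 2 * s + 3 := by omega
      refine (up2 (t := s + 3) (p := p) hb hbr (by omega) (show (s + 2) * p ≤ b by omega)
        (show b ≤ 2 * ((s + 2) * p) by omega) ?_).trans ?_
      · refine Nat.lt_of_mul_lt_mul_left (a := 2 * (s + 2)) ?_
        nlinarith [Nat.mul_le_mul_left (b * (s + 3)) a1]
      · refine Nat.le_of_mul_le_mul_left (c := s + 2) ?_ (by omega)
        nlinarith [Nat.mul_le_mul_left (2 * (s + 3)) a1, Nat.zero_le (s * b)]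
  · obtain ⟨z, h1, h2⟩ := zb hf hV
    rw [Fintype.card_fin] at h1 h2
    refine ⟨z, h1, ?_⟩
    rcases z with _ | z
    · simp at h2
      nlinarith
    · rw [Nat.add_sub_cancel] at h2
      have h3 : ((h b r * r + 2 * (z + 1) * b + 2 : ℕ) : ℤ) ≤
        (h b r * b + 2 * (z + 1) * r + (z + 1) * min z b : ℕ) := by exact_mod_cast h2
      push_cast at h3 ⊢
      rw [add_sub_cancel_right]
      linarith

end Pool.Agent.Results.MP_1e5ebc_co.Stair
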